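import Pool.Agent.H137R5.TowPi

set_option autoImplicit false

/-!
`e ^ e` and the numbers `t ^ e`, `e ^ (π e)`.

Uses the strong six exponentials theorem (helper301, helper335), the inhomogeneous Baker theorem
(helper297) and the Lindemann-Weierstrass theorem (helper340).
-/

namespace Pool.Agent.Results.MP_58ae59_nt.EEOrFreePowers

open Pool.Agent.H137R5.Tow Pool.Agent.H340R2 Pool.Agent.H301R2.SSE

/-- `t` is *free*: its logarithm is not of the form `γ + β₁ l₁ + ... + βₘ lₘ` with `γ`, the `βᵢ`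
and the exponentials of the `lᵢ` algebraic (complex) numbers, i.e. `t` is not of the form
`e ^ γ * α₁ ^ β₁ * ... * αₘ ^ βₘ`. -/
def Free (t : ℝ) : Prop :=
  ∀ (m : ℕ) (γ : ℂ) (β l : Fin m → ℂ), IsAlgebraic ℚ γ → (∀ i, IsAlgebraic ℚ (β i)) →
    (∀ i, IsAlgebraic ℚ (Complex.exp (l i))) → ((Real.log t : ℝ) : ℂ) ≠ γ + ∑ i, β i * l i

theorem alg_of_not {t : ℝ} (h : ¬ Transcendental ℚ t) : IsAlgebraic ℚ t := by
  by_contra h1
  exact h h1

theorem rel_int {x y : ℝ} (h : ∀ m n : ℤ, (m : ℝ) * x = n * y → m = 0 ∧ n = 0) (p q : ℚ)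
    (hpq : (p : ℝ) * x + q * y = 0) : p = 0 ∧ q = 0 := by
  have hp : (p : ℝ) = p.num / p.den := by exact_mod_cast (Rat.num_div_den p).symm
  have hq : (q : ℝ) = q.num / q.den := by exact_mod_cast (Rat.num_div_den q).symm
  have hpd : (p.den : ℝ) ≠ 0 := by exact_mod_cast p.den_nz
  have hqd : (q.den : ℝ) ≠ 0 := by exact_mod_cast q.den_nz
  have h1 := h (p.num * q.den) (-(q.num * p.den)) (by
    rw [hp, hq] at hpq
    push_cast
    field_simp at hpq
    linear_combination hpq)
  have h2 : p.num = 0 := by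
    rcases mul_eq_zero.mp h1.1 with h3 | h3
    · exact h3
    · exact absurd (by exact_mod_cast h3) q.den_nz
  have h4 : q.num = 0 := by
    rcases mul_eq_zero.mp (neg_eq_zero.mp h1.2) with h3 | h3
    · exact h3
    · exact absurd (by exact_mod_cast h3) p.den_nz
  exact ⟨Rat.num_eq_zero.mp h2, Rat.num_eq_zero.mp h4⟩

theorem zpow_exp {x : ℝ} (hx : 0 < x) (m : ℤ) : x ^ m = Real.exp (m * Real.log x) := by
  rw [← Real.rpow_intCast, Real.rpow_def_of_pos hx, mul_comm]

theorem mem_pow {t : ℝ} (ht : 0 < t) (hf : ¬ Free (t ^ Real.exp 1)) :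
    ((Real.exp 1 * Real.log t : ℝ) : ℂ) ∈ Lt := by
  have h3 := bad_of_not_free hf
  unfold Bad at h3
  rwa [Real.log_rpow ht] at h3

/-- Either `e ^ e` is transcendental, or the following two assertions hold: for every positive
real algebraic `t ≠ 1`, `t ^ e` or `e ^ (π e)` is free; for any two multiplicatively independent
positive real algebraic numbers `t`, `t'`, `t ^ e` or `t' ^ e` is free. Free positive numbers are
transcendental. -/
theorem result :
    (Transcendental ℚ (Real.exp 1 ^ Real.exp 1) ∨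
      ((∀ t : ℝ, 0 < t → t ≠ 1 → IsAlgebraic ℚ t →
        Free (t ^ Real.exp 1) ∨ Free (Real.exp (Real.pi * Real.exp 1))) ∧
      (∀ t t' : ℝ, 0 < t → 0 < t' → IsAlgebraic ℚ t → IsAlgebraic ℚ t' →
        (∀ m n : ℤ, t ^ m = t' ^ n → m = 0 ∧ n = 0) →
          Free (t ^ Real.exp 1) ∨ Free (t' ^ Real.exp 1)))) ∧
    (∀ t : ℝ, 0 < t → Free t → Transcendental ℚ t) := by
  refine ⟨?_, fun t ht hf => free_tr ht hf⟩
  by_cases ha : Transcendental ℚ (Real.exp 1 ^ Real.exp 1)
  · exact Or.inl ha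
  right
  have h1 : IsAlgebraic ℚ (Real.exp (Real.exp 1)) := by
    have h := alg_of_not ha
    rwa [Real.exp_one_rpow] at h
  refine ⟨?_, ?_⟩
  · intro t ht ht1 hta
    by_contra hcon
    rw [not_or] at hcon
    have h2 := mem_of_exp hcon.2
    rw [mul_comm] at h2
    exact ee_log h1 h2 t ht ht1 hta (mem_pow ht hcon.1)
  · intro t t' ht ht' hta hta' hind
    by_contra hcon
    rw [not_or] at hcon
    have hl : IsAlgebraic ℚ (Real.exp (Real.log t)) := by rw [Real.exp_log ht]; exact hta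
    have hl' : IsAlgebraic ℚ (Real.exp (Real.log t')) := by rw [Real.exp_log ht']; exact hta'
    refine core (Real.exp 1) LW.transcendental_exp_one 1 ((Real.log t : ℝ) : ℂ)
      ((Real.log t' : ℝ) : ℂ) ?_ Lt_one (lt_of hl) (lt_of hl') ?_ ?_ ?_
    · intro a b d ha' hb hd hs
      have hi : ∀ p q : ℚ, (p : ℝ) * Real.log t + q * Real.log t' = 0 → p = 0 ∧ q = 0 := by
        refine rel_int ?_
        intro m n hmn
        apply hind
        rw [zpow_exp ht, zpow_exp ht', hmn]
      have := bk2 _ _ hl hl' hi a b d 0 ha' hb hd isAlgebraic_zero (by linear_combination hs)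
      exact ⟨this.1, this.2.1, this.2.2.1⟩
    · rw [mul_one]; exact lt_of h1
    · rw [← Complex.ofReal_mul]; exact mem_pow ht hcon.1
    · rw [← Complex.ofReal_mul]; exact mem_pow ht' hcon.2

end Pool.Agent.Results.MP_58ae59_nt.EEOrFreePowers
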