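import Pool.Agent.H206R2.Tower.Six

/-!
Either `e ^ e` is transcendental, or at least three of the four numbers `e/π`, `π/e`, `e²/π`,
`π²/e`, at least two of the three numbers `eπ`, `π²`, `1/π` and at least two of the three numbers
`eπ`, `e²`, `1/e` are not linear combinations of logarithms of algebraic numbers with algebraic
coefficients.
-/

set_option autoImplicit false

namespace Pool.Agent.Results.MP_58ae59_nt.EeOrMost

open Real Pool.Agent.H301R2.SSE Pool.Agent.H301R2.Nine Pool.Agent.H206R2.Tower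

/-- `x` is log-free: every number `exp (γ x) · α₁ ^ β₁ ⋯ αₙ ^ βₙ` is transcendental, where
`γ ≠ 0` and the `βⱼ` are algebraic and `αⱼ ^ βⱼ = exp (βⱼ ℓⱼ)` with `exp ℓⱼ = αⱼ` algebraic. -/
def LogFree (x : ℂ) : Prop :=
  ∀ γ : ℂ, IsAlgebraic ℚ γ → γ ≠ 0 → ∀ (n : ℕ) (β ℓ : Fin n → ℂ),
    (∀ j, IsAlgebraic ℚ (β j)) → (∀ j, IsAlgebraic ℚ (Complex.exp (ℓ j))) →
      Transcendental ℚ (Complex.exp (γ * x + ∑ j, β j * ℓ j))

theorem mem_of_not {x : ℂ} (h : ¬ LogFree x) : x ∈ LB := by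
  unfold LogFree at h
  push Not at h
  obtain ⟨γ, hγ, hγ0, n, β, ℓ, hβ, hℓ, h⟩ := h
  rw [Transcendental, not_not] at h
  have h1 : γ * x + ∑ j, β j * ℓ j ∈ LB := LB_log h
  have h2 : ∑ j, β j * ℓ j ∈ LB := LB.sum_mem (fun j _ => LB_mul (hβ j) (LB_log (hℓ j)))
  have h3 := LB_mul hγ.inv (LB.sub_mem h1 h2)
  have e : γ⁻¹ * (γ * x + ∑ j, β j * ℓ j - ∑ j, β j * ℓ j) = x := by
    rw [add_sub_cancel_right, inv_mul_cancel_left₀ hγ0]
  rwa [e] at h3

/-- the number `e`, as a complex number -/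
noncomputable def ee : ℂ := ((Real.exp 1 : ℝ) : ℂ)

/-- the number `π`, as a complex number -/
noncomputable def pp : ℂ := ((Real.pi : ℝ) : ℂ)

/-- the list `e/π, π/e, e²/π, π²/e` -/
noncomputable def list1 : Fin 4 → ℂ := ![ee / pp, pp / ee, ee ^ 2 / pp, pp ^ 2 / ee]

/-- the list `eπ, π², 1/π` -/
noncomputable def list2 : Fin 3 → ℂ := ![ee * pp, pp ^ 2, 1 / pp]

/-- the list `eπ, e², 1/e` -/
noncomputable def list3 : Fin 3 → ℂ := ![ee * pp, ee ^ 2, 1 / ee]

theorem card_of_pairs {n : ℕ} (P : Fin n → Prop) (h : ∀ i j, i < j → P i ∨ P j) :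
    n - 1 ≤ {i : Fin n | P i}.ncard := by
  classical
  have h1 : {i : Fin n | ¬ P i}.ncard ≤ 1 := by
    rw [Set.ncard_le_one_iff]
    intro i j hi hj
    by_contra hij
    rcases lt_or_gt_of_ne hij with h' | h'
    · rcases h i j h' with h | h
      · exact hi h
      · exact hj h
    · rcases h j i h' with h | h
      · exact hj h
      · exact hi h
  have h2 : {i : Fin n | P i}.ncard + {i : Fin n | ¬ P i}.ncard = n := by
    have := Set.ncard_add_ncard_compl {i : Fin n | P i}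
    rw [Nat.card_eq_fintype_card, Fintype.card_fin] at this
    exact this
  omega

/-- the pairwise statement about the second and third list, for two numbers `x`, `y` in `LB` with
`y / x` transcendental -/
theorem core3 {x y : ℂ} (hx0 : x ≠ 0) (hy0 : y ≠ 0) (hx : x ∈ LB) (hy : y ∈ LB)
    (ht : ¬ IsAlgebraic ℚ (y / x)) :
    2 ≤ {i : Fin 3 | LogFree ((![x * y, y ^ 2, 1 / y] : Fin 3 → ℂ) i)}.ncard := by
  have hM : (y / x) * x ∈ LB := by rw [div_mul_cancel₀ _ hx0]; exact hy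
  have e1 : x * y = y / x * x ^ 2 := by field_simp
  have e2 : y ^ 2 = (y / x * x) ^ 2 := by rw [div_mul_cancel₀ _ hx0]
  have e3 : 1 / y = (y / x * x)⁻¹ := by rw [div_mul_cancel₀ _ hx0, one_div]
  refine card_of_pairs (fun i => LogFree ((![x * y, y ^ 2, 1 / y] : Fin 3 → ℂ) i)) ?_
  intro i j hij
  by_contra hcon
  rw [not_or] at hcon
  obtain ⟨h1, h2⟩ := hcon
  have h1 := mem_of_not h1
  have h2 := mem_of_not h2
  fin_cases i <;> fin_cases j <;> simp only at h1 h2 hij <;>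
    first
      | exact absurd hij (by decide)
      | skip
  · exact pKE ht hx0 hx hM (by rw [← e2]; exact h2) (by rw [← e1]; exact h1)
  · exact pNE ht hx0 hx hM (by rw [← e3]; exact h2) (by rw [← e1]; exact h1)
  · exact pKN ht hx0 hM (by rw [← e2]; exact h1) (by rw [← e3]; exact h2)

theorem core4 {x y : ℂ} (hx0 : x ≠ 0) (hy0 : y ≠ 0) (hx : x ∈ LB) (hy : y ∈ LB)
    (ht : ¬ IsAlgebraic ℚ (y / x)) :
    3 ≤ {i : Fin 4 | LogFree ((![x / y, y / x, x ^ 2 / y, y ^ 2 / x] : Fin 4 → ℂ) i)}.ncard := by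
  have hM : (y / x) * x ∈ LB := by rw [div_mul_cancel₀ _ hx0]; exact hy
  have e1 : x / y = (y / x)⁻¹ := by rw [inv_div]
  have e2 : x ^ 2 / y = (y / x)⁻¹ * x := by field_simp
  have e3 : y ^ 2 / x = (y / x) * ((y / x) * x) := by field_simp
  refine card_of_pairs
    (fun i => LogFree ((![x / y, y / x, x ^ 2 / y, y ^ 2 / x] : Fin 4 → ℂ) i)) ?_
  intro i j hij
  by_contra hcon
  rw [not_or] at hcon
  obtain ⟨h1, h2⟩ := hcon
  have h1 := mem_of_not h1
  have h2 := mem_of_not h2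
  fin_cases i <;> fin_cases j <;> simp only at h1 h2 hij <;>
    first
      | exact absurd hij (by decide)
      | skip
  · exact pAB ht hx0 hx hM h2 (by rw [← e1]; exact h1)
  · exact pBD ht hx0 hx hM (by rw [← e1]; exact h1) (by rw [← e2]; exact h2)
  · exact pBC ht hx0 hx hM (by rw [← e1]; exact h1) (by rw [← e3]; exact h2)
  · exact pAD ht hx0 hx hM h1 (by rw [← e2]; exact h2)
  · exact pAC ht hx0 hx hM h1 (by rw [← e3]; exact h2)
  · exact pCD ht hx0 hx hM (by rw [← e3]; exact h2) (by rw [← e2]; exact h1)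

/-- Either `e ^ e` is transcendental, or at least three of `e/π, π/e, e²/π, π²/e`, at least two of
`eπ, π², 1/π` and at least two of `eπ, e², 1/e` are log-free. -/
theorem result : Transcendental ℚ (Real.exp 1 ^ Real.exp 1) ∨
    (3 ≤ {i : Fin 4 | LogFree (list1 i)}.ncard ∧
      2 ≤ {i : Fin 3 | LogFree (list2 i)}.ncard ∧
      2 ≤ {i : Fin 3 | LogFree (list3 i)}.ncard) := by
  by_cases hw : Transcendental ℚ (Real.exp 1 ^ Real.exp 1)
  · exact Or.inl hw
  right
  rw [Transcendental, not_not, Real.exp_one_rpow] at hw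
  have he0 : Real.exp 1 ≠ 0 := Real.exp_ne_zero 1
  have hx : ee ∈ LB := real_mem hw
  have hy : pp ∈ LB := pi_mem
  have hx0 : ee ≠ 0 := by
    unfold ee
    exact_mod_cast he0
  have hy0 : pp ≠ 0 := by
    unfold pp
    exact_mod_cast Real.pi_ne_zero
  have ht : ¬ IsAlgebraic ℚ (pp / ee) := by
    intro h
    have h1 := pi_log (t := Real.exp 1) he0 hw (a := 0) (b := 1) (c := -(pp / ee))
      isAlgebraic_zero isAlgebraic_one h.neg (by
        change 0 + 1 * pp + -(pp / ee) * ee = 0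
        field_simp
        ring)
    exact one_ne_zero h1.2.1
  have ht' : ¬ IsAlgebraic ℚ (ee / pp) := by
    intro h
    apply ht
    have := h.inv
    rwa [inv_div] at this
  refine ⟨core4 hx0 hy0 hx hy ht, core3 hx0 hy0 hx hy ht, ?_⟩
  have h3 := core3 hy0 hx0 hy hx ht'
  have e : (![pp * ee, ee ^ 2, 1 / ee] : Fin 3 → ℂ) = list3 := by
    unfold list3
    rw [mul_comm pp ee]
  rw [e] at h3
  exact h3

end Pool.Agent.Results.MP_58ae59_nt.EeOrMost
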