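import Pool.Agent.H206R2.OneVar.F

/-!
Either `e ^ e` is transcendental, or all but at most one of the numbers `e²` and `1/(e - a)` (`a`
algebraic) are not linear combinations of `1` and logarithms of algebraic numbers with algebraic
coefficients.
-/

set_option autoImplicit false

namespace Pool.Agent.Results.MP_58ae59_nt.EeOrPoles

open Real Pool.Agent.H301R2.SSE Pool.Agent.H301R2.Nine Pool.Agent.H206R2.Tower
open Pool.Agent.H206R2.OneVar (sub_ne mul_pole poles2)

/-- `x` is strongly log-free: every number `exp (γ x + δ) · α₁ ^ β₁ ⋯ αₙ ^ βₙ` is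
transcendental, where `γ ≠ 0`, `δ` and the `βⱼ` are algebraic and `αⱼ ^ βⱼ = exp (βⱼ ℓⱼ)` with
`exp ℓⱼ = αⱼ` algebraic. -/
def StronglyLogFree (x : ℂ) : Prop :=
  ∀ γ δ : ℂ, IsAlgebraic ℚ γ → IsAlgebraic ℚ δ → γ ≠ 0 → ∀ (n : ℕ) (β ℓ : Fin n → ℂ),
    (∀ j, IsAlgebraic ℚ (β j)) → (∀ j, IsAlgebraic ℚ (Complex.exp (ℓ j))) →
      Transcendental ℚ (Complex.exp (γ * x + δ + ∑ j, β j * ℓ j))

theorem mem_of_not {x : ℂ} (hx : ¬ StronglyLogFree x) : x ∈ Lt := by
  unfold StronglyLogFree at hx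
  push Not at hx
  obtain ⟨γ, δ, hγ, hδ, hγ0, n, β, ℓ, hβ, hℓ, h⟩ := hx
  rw [Transcendental, not_not] at h
  have h1 : γ * x + δ + ∑ j, β j * ℓ j ∈ Lt := Lt_log h
  have h2 : ∑ j, β j * ℓ j ∈ Lt := Lt.sum_mem (fun j _ => Lt_mul (hβ j) (Lt_log (hℓ j)))
  have h3 := Lt_mul hγ.inv (Lt.sub_mem (Lt.sub_mem h1 h2) (Lt_alg hδ))
  have e : γ⁻¹ * (γ * x + δ + ∑ j, β j * ℓ j - ∑ j, β j * ℓ j - δ) = x := by
    rw [add_sub_cancel_right, add_sub_cancel_right, inv_mul_cancel_left₀ hγ0]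
  rwa [e] at h3

/-- the number `e`, as a complex number -/
noncomputable def ee : ℂ := ((Real.exp 1 : ℝ) : ℂ)

theorem ee_tr : ¬ IsAlgebraic ℚ ee := trC_e

/-- `1/(θ - α)` and `θ²` -/
theorem pair2 {θ α : ℂ} (hθ : ¬ IsAlgebraic ℚ θ) (hm : θ ∈ Lt) (hα : IsAlgebraic ℚ α)
    (h1 : 1 / (θ - α) ∈ Lt) (h2 : θ ^ 2 ∈ Lt) : False := by
  have s0 := sub_ne hθ hα
  refine six' 1 θ (1 / (θ - α)) 1 θ
    (fun a b ha hb h => lin_of_tr hθ ha hb (by linear_combination h)) ?_
    (by rw [one_mul]; exact h1) (by rw [one_mul]; exact Lt_one) (by rw [one_mul]; exact hm)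
    (mul_pole hθ hα h1) (by rw [mul_one]; exact hm)
    (by rw [← sq]; exact h2)
  intro a b c ha hb hc h
  have key : (a - b * α) + (b - c * α) * θ + c * θ ^ 2 = 0 := by
    have : (θ - α) * (a * (1 / (θ - α)) + b * 1 + c * θ)
        = (a - b * α) + (b - c * α) * θ + c * θ ^ 2 := by
      field_simp
      ring
    rw [← this, h, mul_zero]
  obtain ⟨k0, k1, k2⟩ := quad hθ (ha.sub (hb.mul hα)) (hb.sub (hc.mul hα)) hc key
  subst k2
  have hb0 : b = 0 := by linear_combination k1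
  subst hb0
  exact ⟨by linear_combination k0, rfl, rfl⟩

/-- Either `e ^ e` is transcendental, or: (i) all but at most one of the numbers `e²` and
`1/(e - a)` (`a` algebraic) are strongly log-free; (ii) for logarithms `μ`, `ν` of algebraic
numbers, linearly independent over the algebraic numbers, one of `e μ`, `e ν` is strongly
log-free; (iii) if the logarithm `μ ≠ 0` is not an algebraic multiple of `e` then one of `e²`, `e μ`
is. -/
theorem result : Transcendental ℚ (Real.exp 1 ^ Real.exp 1) ∨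
    ((∀ a b : ℂ, IsAlgebraic ℚ a → IsAlgebraic ℚ b → a ≠ b →
        StronglyLogFree (1 / (ee - a)) ∨ StronglyLogFree (1 / (ee - b))) ∧
      (∀ a : ℂ, IsAlgebraic ℚ a → StronglyLogFree (ee ^ 2) ∨ StronglyLogFree (1 / (ee - a))) ∧
      (∀ μ ν : ℂ, IsAlgebraic ℚ (Complex.exp μ) → IsAlgebraic ℚ (Complex.exp ν) →
        (∀ b c : ℂ, IsAlgebraic ℚ b → IsAlgebraic ℚ c → b * μ + c * ν = 0 → b = 0 ∧ c = 0) →
        StronglyLogFree (ee * μ) ∨ StronglyLogFree (ee * ν)) ∧
      (∀ μ : ℂ, IsAlgebraic ℚ (Complex.exp μ) → μ ≠ 0 →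
        (∀ c : ℂ, IsAlgebraic ℚ c → μ ≠ c * ee) →
        StronglyLogFree (ee ^ 2) ∨ StronglyLogFree (ee * μ))) := by
  by_cases hw : Transcendental ℚ (Real.exp 1 ^ Real.exp 1)
  · exact Or.inl hw
  right
  rw [Transcendental, not_not, Real.exp_one_rpow] at hw
  have hx : ee ∈ LB := real_mem hw
  have hxt : ee ∈ Lt := LB_Lt hx
  have hrow : ∀ a b : ℂ, IsAlgebraic ℚ a → IsAlgebraic ℚ b → a * 1 + b * ee = 0 →
      a = 0 ∧ b = 0 := fun a b ha hb h => lin_of_tr ee_tr ha hb (by linear_combination h)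
  refine ⟨?_, ?_, ?_, ?_⟩
  · intro a b ha hb hab
    by_contra hcon
    rw [not_or] at hcon
    exact poles2 ee_tr ha hb hab hxt (mem_of_not hcon.1) (mem_of_not hcon.2)
  · intro a ha
    by_contra hcon
    rw [not_or] at hcon
    exact pair2 ee_tr hxt ha (mem_of_not hcon.2) (mem_of_not hcon.1)
  · intro μ ν hμ hν hind
    by_contra hcon
    rw [not_or] at hcon
    have hμm : μ ∈ LB := LB_log hμ
    have hνm : ν ∈ LB := LB_log hν
    refine six' 1 ee 1 μ ν hrow ?_ (by rw [one_mul]; exact Lt_one) (by rw [one_mul]; exact LB_Lt hμm)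
      (by rw [one_mul]; exact LB_Lt hνm) (by rw [mul_one]; exact hxt) (mem_of_not hcon.1)
      (mem_of_not hcon.2)
    intro a b c ha hb hc h
    have ha0 : a = 0 := LBz ha (LB.add_mem (LB_mul hb hμm) (LB_mul hc hνm))
      (by linear_combination h)
    subst ha0
    obtain ⟨h1, h2⟩ := hind b c hb hc (by linear_combination h)
    exact ⟨rfl, h1, h2⟩
  · intro μ hμ hμ0 hind
    by_contra hcon
    rw [not_or] at hcon
    have hμm : μ ∈ LB := LB_log hμ
    refine six' 1 ee 1 ee μ hrow ?_ (by rw [one_mul]; exact Lt_one) (by rw [one_mul]; exact hxt)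
      (by rw [one_mul]; exact LB_Lt hμm) (by rw [mul_one]; exact hxt)
      (by rw [← sq]; exact mem_of_not hcon.1) (mem_of_not hcon.2)
    intro a b c ha hb hc h
    have ha0 : a = 0 := LBz ha (LB.add_mem (LB_mul hb hx) (LB_mul hc hμm))
      (by linear_combination h)
    subst ha0
    by_cases hc0 : c = 0
    · subst hc0
      refine ⟨rfl, ?_, rfl⟩
      have h3 : b * ee = 0 := by linear_combination h
      exact (mul_eq_zero.mp h3).resolve_right (ne_zero_of_tr ee_tr)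
    · exfalso
      refine hind (-b * c⁻¹) (hb.neg.mul hc.inv) ?_
      field_simp
      linear_combination h

end Pool.Agent.Results.MP_58ae59_nt.EeOrPoles
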