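import Mathlib
import Pool.Agent.H364R2.EEb

namespace Pool.Agent.Results.MP_58ae59_nt.SuperparticularPower

theorem result : ∀ n m : ℕ, 1 ≤ n → Real.exp (Real.exp 1) ≠ (((n : ℝ) + 1) / (n : ℝ)) ^ m := by
  intro n m hn h
  apply Pool.Agent.H364R2.EE.superparticular n m hn
  rw [h]
  congr 1
  have hn0 : (n : ℝ) ≠ 0 := by positivity
  field_simp

end Pool.Agent.Results.MP_58ae59_nt.SuperparticularPower
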